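import Pool.Agent.Helper94.GA.Goals

/-!
# Packet FBN (MP_d69e80_al): finite normal subgroup and a lower central series reaching it.
-/

namespace Pool.Agent.Helper17.GA

open Pool.Agent.Helper94.GA

universe u

theorem FBN : FBN_stmt.{u} := by
  intro H _ F U hFn hF hU ⟨n, hn⟩
  classical
  have hUn : U.lowerCentralSeries n ≤ F := hn U.lowerCentralSeries rfl (fun i => rfl)
  have : Finite (MulAut F) := Finite.of_injective (fun e : MulAut F => (e : F → F))
    (fun a b h => MulEquiv.ext (fun x => congrFun h x))
  set Z : Subgroup H := (MulAut.conjNormal (H := F)).ker with hZ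
  have : Z.FiniteIndex := Subgroup.finiteIndex_ker _
  have : U.FiniteIndex := hU
  refine ⟨U ⊓ Z, inferInstance, ?_⟩
  rw [Subgroup.isNilpotent_iff_lowerCentralSeries]
  refine ⟨n + 1, ?_⟩
  have hmono : ∀ k, (U ⊓ Z).lowerCentralSeries k ≤ U.lowerCentralSeries k := by
    intro k
    induction k with
    | zero => exact inf_le_left
    | succ k ih =>
      rw [Subgroup.lowerCentralSeries_succ, Subgroup.lowerCentralSeries_succ]
      exact Subgroup.commutator_mono ih inf_le_left
  rw [Subgroup.lowerCentralSeries_succ, eq_bot_iff, Subgroup.commutator_le]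
  intro a ha c hc
  have haF : a ∈ F := hUn (hmono n ha)
  have hcZ : c ∈ Z := hc.2
  rw [hZ, MonoidHom.mem_ker] at hcZ
  have h1 : c * a * c⁻¹ = a := by
    have h2 := congrArg (fun e : MulAut F => ((e ⟨a, haF⟩ : F) : H)) hcZ
    simpa using h2
  rw [Subgroup.mem_bot, commutatorElement_def]
  have h3 : c * a = a * c := by
    have h4 := congrArg (fun z => z * c) h1
    simpa [mul_assoc] using h4
  calc a * c * a⁻¹ * c⁻¹ = (a * c) * (c * a)⁻¹ := by group
    _ = 1 := by rw [h3]; group

end Pool.Agent.Helper17.GA
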